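import Mathlib
import Pool.Agent.Results.MP_430a41_an.HolSpanFails

/-!
# An orbit of local CR diffeomorphisms which is not an immersed submanifold

Real 5-space with coordinates `(s, t, x, y, u)` carries the CR structures `SS` of the file
`HolSpanFails` (frame `∂_x + i ∂_y + ψ(s, t) (y - i x) ∂_u`, up to notation of that file), whose
Levi form is `ψ(s, t)`.  The function `ψ` vanishes exactly for `t ≤ 0` and at the lattice points
`(k / N_j, 1 / N_j)`, where the integers `N_j` grow very fast.  The set of zeros of the Levi form is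
preserved by CR diffeomorphisms.  So a local CR diffeomorphism `h` with `h 0 = (s₀, 0, ...)` maps the
fibre over `(0, 1 / N_j)` to the fibre over some `(k_j / N_j, 1 / N_j)`, for all large `j`, and
differentiability at the origin gives that `k_j - N_j s₀` converges.  The `s₀` with this property
contain no interval; but uncountably many of them belong to the orbit, since `ψ` is invariant under
shears `s ↦ s + η(t)` with `η(1 / N_j)` in `(1 / N_j) ℤ`, and such smooth `η` exist as soon as `η(0)`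
is extremely close to `(1 / N_j) ℤ` for all `j`.  An immersed submanifold has only countably many
components, and the first coordinate would be constant on each of them.
-/

open Set Filter Topology
open scoped ContDiff Manifold

namespace Pool.Agent.Results.MP_430a41_an.OrbitNotImmersed

open Pool.Agent.Results.MP_430a41_an.HolSpanFails

/-! ### Nested intervals -/

lemma nested (c r : ℕ → ℝ) (hr : ∀ j, 0 ≤ r j) (h : ∀ j, |c (j + 1) - c j| + r (j + 1) ≤ r j) :
    ∃ x, ∀ j, |x - c j| ≤ r j := by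
  have hne : (⋂ j, Metric.closedBall (c j) (r j)).Nonempty := by
    apply IsCompact.nonempty_iInter_of_sequence_nonempty_isCompact_isClosed
    · intro j
      apply Metric.closedBall_subset_closedBall'
      rw [Real.dist_eq]
      linarith [h j]
    · intro j
      exact Metric.nonempty_closedBall.2 (hr j)
    · exact isCompact_closedBall _ _
    · intro j
      exact Metric.isClosed_closedBall
  obtain ⟨x, hx⟩ := hne
  refine ⟨x, fun j => ?_⟩
  have := mem_iInter.1 hx j
  rwa [Metric.mem_closedBall, Real.dist_eq] at this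

/-! ### Bumps -/

/-- wide bump around `τ` -/
noncomputable def bumpAt (τ : ℝ) (hτ : 0 < τ) : ContDiffBump τ :=
  ⟨τ / 8, τ / 4, by positivity, by linarith⟩

/-- narrow bump around `τ` -/
noncomputable def thin (τ : ℝ) (hτ : 0 < τ) : ContDiffBump τ :=
  ⟨τ / 16, τ / 8, by positivity, by linarith⟩

lemma bumpAt_eq_one {τ : ℝ} {hτ : 0 < τ} {t : ℝ} (h : |t - τ| ≤ τ / 8) : bumpAt τ hτ t = 1 := by
  apply ContDiffBump.one_of_mem_closedBall
  simpa [bumpAt, Real.dist_eq] using h

lemma bumpAt_eq_zero {τ : ℝ} {hτ : 0 < τ} {t : ℝ} (h : τ / 4 ≤ |t - τ|) : bumpAt τ hτ t = 0 := by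
  apply ContDiffBump.zero_of_le_dist
  simpa [bumpAt, Real.dist_eq] using h

lemma thin_eq_zero {τ : ℝ} {hτ : 0 < τ} {t : ℝ} (h : τ / 8 ≤ |t - τ|) : thin τ hτ t = 0 := by
  apply ContDiffBump.zero_of_le_dist
  simpa [thin, Real.dist_eq] using h

lemma thin_self {τ : ℝ} {hτ : 0 < τ} : thin τ hτ τ = 1 := by
  apply ContDiffBump.one_of_mem_closedBall
  simp [thin]
  linarith

lemma bdd_bump (τ : ℝ) (hτ : 0 < τ) (k : ℕ) :
    ∃ C, ∀ x, ‖iteratedFDeriv ℝ k (fun t => bumpAt τ hτ t) x‖ ≤ C := by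
  have h1 : HasCompactSupport (iteratedFDeriv ℝ k (fun t => bumpAt τ hτ t)) :=
    (bumpAt τ hτ).hasCompactSupport.iteratedFDeriv k
  have h2 : Continuous (iteratedFDeriv ℝ k (fun t => bumpAt τ hτ t)) :=
    ContDiff.continuous_iteratedFDeriv (n := ∞) (mod_cast le_top) (bumpAt τ hτ).contDiff
  exact h2.bounded_above_of_compact_support h1

/-- The fast growing integers `N j` and the smallness constants `a j`. -/
structure Scales where
  N : ℕ → ℕ
  a : ℕ → ℝ
  pos : ∀ j, 1 ≤ N j
  grow : ∀ j, 16 * (j + 1) * N j ≤ N (j + 1)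
  apos : ∀ j, 0 < a j
  fine : ∀ j, 8 ≤ N (j + 1) * a j
  bound : ∀ j (hτ : 0 < 1 / (N j : ℝ)) (c : ℝ), |c| ≤ a j → ∀ k ≤ j, ∀ x,
      ‖iteratedFDeriv ℝ k (fun t => c * bumpAt (1 / (N j : ℝ)) hτ t) x‖ ≤ (1 / 2) ^ j

lemma exists_scales : Nonempty Scales := by
  have h : ∀ j n : ℕ, ∃ a : ℝ, 0 < a ∧ ∀ (hτ : 0 < 1 / (n : ℝ)) (c : ℝ), |c| ≤ a → ∀ k ≤ j, ∀ x,
      ‖iteratedFDeriv ℝ k (fun t => c * bumpAt (1 / (n : ℝ)) hτ t) x‖ ≤ (1 / 2) ^ j := by
    intro j n
    by_cases hτ : 0 < 1 / (n : ℝ)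
    · obtain ⟨a, ha, hac⟩ := coeff (fun t => bumpAt (1 / (n : ℝ)) hτ t)
        (bumpAt (1 / (n : ℝ)) hτ).contDiff (bdd_bump _ hτ) j
      exact ⟨a, ha, fun _ => hac⟩
    · exact ⟨1, one_pos, fun h => absurd h hτ⟩
  choose a ha hac using h
  obtain ⟨N, hN0, hN⟩ : ∃ N : ℕ → ℕ, N 0 = 1 ∧
      ∀ j, N (j + 1) = 16 * (j + 1) * N j * (⌈8 / a j (N j)⌉₊ + 1) :=
    ⟨fun j => Nat.rec 1 (fun j n => 16 * (j + 1) * n * (⌈8 / a j n⌉₊ + 1)) j, rfl, fun _ => rfl⟩
  have hpos : ∀ j, 1 ≤ N j := by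
    intro j
    induction j with
    | zero => exact hN0.ge
    | succ j ih =>
      rw [hN]
      have : 0 < 16 * (j + 1) * N j * (⌈8 / a j (N j)⌉₊ + 1) := by positivity
      exact this
  refine ⟨⟨N, fun j => a j (N j), hpos, ?_, fun j => ha _ _, ?_, fun j hτ c hc => hac _ _ hτ c hc⟩⟩
  · intro j
    rw [hN]
    exact Nat.le_mul_of_pos_right _ (Nat.succ_pos _)
  · intro j
    rw [hN]
    have h1 : 8 / a j (N j) ≤ (⌈8 / a j (N j)⌉₊ : ℝ) := Nat.le_ceil _
    have h2 := ha j (N j)
    rw [div_le_iff₀ h2] at h1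
    have h3 : (1 : ℝ) ≤ 16 * ((j : ℝ) + 1) * ((N j : ℕ) : ℝ) := by
      have h4 : (1 : ℝ) ≤ ((N j : ℕ) : ℝ) := by exact_mod_cast hpos j
      have h5 : (0 : ℝ) ≤ j := by positivity
      nlinarith
    push_cast
    have h6 : (0 : ℝ) ≤ ((⌈8 / a j (N j)⌉₊ : ℝ) + 1) * a j (N j) := by positivity
    nlinarith

namespace Scales

variable (D : Scales)

lemma Npos (j : ℕ) : (0 : ℝ) < D.N j := by exact_mod_cast D.pos j

/-- the points `t_j = 1 / N_j` -/
noncomputable def T (j : ℕ) : ℝ := 1 / (D.N j : ℝ)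

lemma T_pos (j : ℕ) : 0 < D.T j := by
  have := D.Npos j
  unfold T
  positivity

lemma N_succ (j : ℕ) : 16 * ((j : ℝ) + 1) * D.N j ≤ D.N (j + 1) := by
  exact_mod_cast D.grow j

lemma T_succ (j : ℕ) : D.T (j + 1) ≤ D.T j / 2 := by
  have h1 := D.N_succ j
  have h2 := D.Npos j
  have h3 := D.Npos (j + 1)
  have h4 : 2 * (D.N j : ℝ) ≤ D.N (j + 1) := by
    have : (0 : ℝ) ≤ j := by positivity
    nlinarith
  unfold T
  rw [div_div, one_div_le_one_div h3 (by positivity)]
  linarith

lemma T_lt {i j : ℕ} (h : i < j) : D.T j ≤ D.T i / 2 := by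
  induction j with
  | zero => omega
  | succ j ih =>
    rcases Nat.lt_succ_iff_lt_or_eq.1 h with h | h
    · have h1 := ih h
      have h2 := D.T_succ j
      have h3 := D.T_pos j
      linarith
    · subst h
      exact D.T_succ i

lemma sep {i j : ℕ} (hij : i ≠ j) {t : ℝ} (h : |t - D.T j| < D.T j / 4) :
    D.T i / 4 ≤ |t - D.T i| := by
  rcases lt_or_gt_of_ne hij with hlt | hlt
  · have h1 := D.T_lt hlt
    have h2 := D.T_pos i
    have h3 := D.T_pos j
    rw [abs_lt] at h
    rw [abs_of_neg (by linarith)]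
    linarith
  · have h1 := D.T_lt hlt
    have h2 := D.T_pos i
    have h3 := D.T_pos j
    rw [abs_lt] at h
    rw [abs_of_pos (by linarith)]
    linarith

lemma T_tendsto : Tendsto D.T atTop (𝓝 0) := by
  have h : ∀ j, D.T j ≤ (1 / 2 : ℝ) ^ j * D.T 0 := by
    intro j
    induction j with
    | zero => simp
    | succ j ih =>
      have := D.T_succ j
      rw [pow_succ]
      linarith
  refine squeeze_zero (fun j => (D.T_pos j).le) h ?_
  have := tendsto_pow_atTop_nhds_zero_of_lt_one (r := (1 / 2 : ℝ)) (by norm_num) (by norm_num)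
  simpa using this.mul_const (D.T 0)

/-- the oscillating building blocks -/
noncomputable def osc (j : ℕ) (x : ℝ × ℝ) : ℝ :=
  thin (D.T j) (D.T_pos j) x.2 * Real.sin (Real.pi * (D.N j * x.1)) ^ 2

lemma osc_smooth (j : ℕ) : ContDiff ℝ ∞ (D.osc j) := by
  unfold osc
  have h1 : ContDiff ℝ ∞ (fun x : ℝ × ℝ => thin (D.T j) (D.T_pos j) x.2) :=
    (thin (D.T j) (D.T_pos j)).contDiff.comp contDiff_snd
  have h2 : ContDiff ℝ ∞ (fun x : ℝ × ℝ => Real.sin (Real.pi * (D.N j * x.1)) ^ 2) := by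
    fun_prop
  exact h1.mul h2

lemma bdd_osc (j k : ℕ) : ∃ C, ∀ x, ‖iteratedFDeriv ℝ k (D.osc j) x‖ ≤ C := by
  apply bdd_periodic _ (D.osc_smooth j) _ (2 * D.T j)
  · intro s t ht
    have h1 := D.T_pos j
    have : thin (D.T j) (D.T_pos j) t = 0 := by
      apply thin_eq_zero
      have h2 : |t| ≤ |t - D.T j| + |D.T j| := by
        have := abs_add_le (t - D.T j) (D.T j)
        simpa using this
      rw [abs_of_pos h1] at h2
      linarith
    simp [osc, this]
  · intro s t
    simp only [osc]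
    congr 1
    have : Real.pi * (D.N j * (s + 1)) = Real.pi * (D.N j * s) + ((D.N j : ℤ) : ℝ) * Real.pi := by
      push_cast; ring
    rw [this, sin_shift]

lemma osc_nonneg (j : ℕ) (x : ℝ × ℝ) : 0 ≤ D.osc j x := by
  unfold osc
  have := (thin (D.T j) (D.T_pos j)).nonneg (x := x.2)
  positivity

/-- The structure function.  Its zero set is `t ≤ 0` together with the lattice points
`(k / N_j, 1 / N_j)`, and it is invariant under some shears `s ↦ s + η t`. -/
theorem exists_psi : ∃ ψ : ℝ × ℝ → ℝ, ContDiff ℝ ∞ ψ ∧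
    (∀ s t, t ≤ 0 → ψ (s, t) = 0) ∧
    (∀ s t, 0 < t → ψ (s, t) = 0 → ∃ j, t = D.T j ∧ ∃ k : ℤ, s = k / D.N j) ∧
    (∀ j (k : ℤ), ψ (k / D.N j, D.T j) = 0) ∧
    (∀ δ : ℝ, (∀ j, ∃ k : ℤ, |k / D.N j - δ| ≤ D.a j) →
      ∃ η : ℝ → ℝ, ContDiff ℝ ∞ η ∧ η 0 = δ ∧ ∀ s t, ψ (s + η t, t) = ψ (s, t)) := by
  have hmpos := D.Npos
  choose b hb hbc using fun j => coeff (D.osc j) (D.osc_smooth j) (D.bdd_osc j) j
  -- the closed set of t's
  have hclosed : IsClosed (Iic (0:ℝ) ∪ insert 0 (range D.T)) := by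
    refine isClosed_Iic.union ?_
    exact D.T_tendsto.isCompact_insert_range.isClosed
  obtain ⟨ρ, hρs, hρd, hρr⟩ := (hclosed.isOpen_compl).exists_contDiff_support_eq (n := ⊤)
  have hρ0 : ∀ t, t ∈ Iic (0:ℝ) ∪ insert 0 (range D.T) → ρ t = 0 := by
    intro t ht
    by_contra h
    have : t ∈ ρ.support := h
    rw [hρs] at this
    exact this ht
  have hρnn : ∀ t, 0 ≤ ρ t := fun t => (hρr (mem_range_self t)).1
  have hsum : ∀ x, Summable (fun j => b j * D.osc j x) := by
    intro x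
    refine Summable.of_norm_bounded (g := fun j => (1 / 2 : ℝ) ^ j)
      (summable_geometric_of_lt_one (by norm_num) (by norm_num)) ?_
    intro j
    have := hbc j (b j) (by rw [abs_of_pos (hb j)]) 0 (Nat.zero_le _) x
    simpa only [norm_iteratedFDeriv_zero] using this
  have hnn : ∀ x j, 0 ≤ b j * D.osc j x := fun x j => mul_nonneg (hb j).le (D.osc_nonneg j x)
  refine ⟨fun x => ρ x.2 + ∑' j, b j * D.osc j x, ?_, ?_, ?_, ?_, ?_⟩
  · refine ContDiff.add ?_ ?_
    · exact (hρd.of_le (by simp)).comp contDiff_snd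
    · exact smooth_sum _ (D.osc_smooth) b
        (fun j k hk x => hbc j (b j) (by rw [abs_of_pos (hb j)]) k hk x)
  · intro s t ht
    have h1 : ρ t = 0 := hρ0 t (Or.inl ht)
    have h2 : ∀ j, b j * D.osc j (s, t) = 0 := by
      intro j
      have : thin (D.T j) (D.T_pos j) t = 0 := by
        apply thin_eq_zero
        have h1 := D.T_pos j
        rw [abs_of_neg (by linarith)]
        linarith
      simp [osc, this]
    simp [h1, h2]
  · intro s t ht hψ
    have h1 : 0 ≤ ∑' j, b j * D.osc j (s, t) := tsum_nonneg (hnn _)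
    have h2 : ρ t = 0 := by
      have := hρnn t
      simp only at hψ
      linarith
    have h3 : ∑' j, b j * D.osc j (s, t) = 0 := by
      simp only at hψ
      linarith
    have h4 : t ∈ Iic (0:ℝ) ∪ insert 0 (range D.T) := by
      by_contra hcon
      have : t ∈ ρ.support := by rw [hρs]; exact hcon
      exact this h2
    rcases h4 with h4 | h4 | ⟨j, hj⟩
    · exact absurd ht (not_lt.2 h4)
    · exact absurd ht (by rw [h4]; exact lt_irrefl _)
    · refine ⟨j, hj.symm, ?_⟩
      have h5 : b j * D.osc j (s, t) = 0 := by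
        by_contra hne
        have hpos : 0 < b j * D.osc j (s, t) := lt_of_le_of_ne (hnn _ j) (Ne.symm hne)
        have := (hsum (s, t)).tsum_pos (hnn _) j hpos
        linarith
      have h6 : D.osc j (s, t) = 0 := by
        rcases mul_eq_zero.1 h5 with h | h
        · exact absurd h (hb j).ne'
        · exact h
      simp only [osc, ← hj, thin_self, one_mul] at h6
      have h7 : Real.sin (Real.pi * (D.N j * s)) = 0 := by
        exact pow_eq_zero_iff (two_ne_zero) |>.1 h6
      obtain ⟨k, hk⟩ := Real.sin_eq_zero_iff.1 h7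
      refine ⟨k, ?_⟩
      rw [eq_div_iff (hmpos j).ne']
      have hpi := Real.pi_pos.ne'
      have : Real.pi * (k - D.N j * s) = 0 := by linarith
      rcases mul_eq_zero.1 this with h | h
      · exact absurd h hpi
      · linarith
  · intro j k
    have h1 : ρ (D.T j) = 0 := hρ0 _ (Or.inr (Or.inr ⟨j, rfl⟩))
    have h2 : ∀ i, b i * D.osc i (k / D.N j, D.T j) = 0 := by
      intro i
      by_cases hij : i = j
      · subst hij
        have : Real.pi * (D.N i * (k / D.N i)) = 0 + k * Real.pi := by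
          have := (hmpos i).ne'
          field_simp
          ring
        simp only [osc]
        rw [this, sin_shift]
        simp
      · have hs := D.sep (t := D.T j) hij (by simp; exact D.T_pos j)
        have : thin (D.T i) (D.T_pos i) (D.T j) = 0 := by
          apply thin_eq_zero
          have := D.T_pos i
          linarith
        simp [osc, this]
    simp [h1, h2]
  · intro δ hδ
    choose κ hκ using hδ
    set c : ℕ → ℝ := fun j => κ j / D.N j - δ with hc
    have hca : ∀ j, |c j| ≤ D.a j := hκ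
    refine ⟨fun t => δ + ∑' j, c j * bumpAt (D.T j) (D.T_pos j) t, ?_, ?_, ?_⟩
    · refine contDiff_const.add ?_
      exact smooth_sum (fun j t => bumpAt (D.T j) (D.T_pos j) t)
        (fun j => (bumpAt (D.T j) (D.T_pos j)).contDiff) c
        (fun j k hk x => D.bound j (D.T_pos j) (c j) (hca j) k hk x)
    · have : ∀ j, c j * bumpAt (D.T j) (D.T_pos j) 0 = 0 := by
        intro j
        have h1 := D.T_pos j
        rw [bumpAt_eq_zero, mul_zero]
        rw [abs_of_neg (by linarith)]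
        linarith
      simp [this]
    · intro s t
      have key : ∀ j, D.osc j (s + (δ + ∑' j, c j * bumpAt (D.T j) (D.T_pos j) t), t) =
          D.osc j (s, t) := by
        intro j
        by_cases hj : |t - D.T j| < D.T j / 8
        · have h1 : ∑' i, c i * bumpAt (D.T i) (D.T_pos i) t =
              c j * bumpAt (D.T j) (D.T_pos j) t := by
            apply tsum_eq_single
            intro i hij
            rw [bumpAt_eq_zero, mul_zero]
            exact D.sep hij (by have := D.T_pos j; linarith)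
          have h2 : bumpAt (D.T j) (D.T_pos j) t = 1 := bumpAt_eq_one hj.le
          simp only [osc]
          rw [h1, h2, mul_one]
          congr 1
          have h3 : Real.pi * (D.N j * (s + (δ + c j))) =
              Real.pi * (D.N j * s) + (κ j : ℝ) * Real.pi := by
            have := (hmpos j).ne'
            rw [hc]
            field_simp
            ring
          rw [h3, sin_shift]
        · have : thin (D.T j) (D.T_pos j) t = 0 := thin_eq_zero (not_lt.1 hj)
          simp [osc, this]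
      simp only [key]

end Scales

/-! ### local CR diffeomorphisms respect the sign of the second coordinate -/

/-- The properties of the structure function used below. -/
structure Good (D : Scales) (ψ : ℝ × ℝ → ℝ) : Prop where
  smooth : ContDiff ℝ ∞ ψ
  neg : ∀ s t, t ≤ 0 → ψ (s, t) = 0
  zero : ∀ s t, 0 < t → ψ (s, t) = 0 → ∃ j, t = D.T j ∧ ∃ k : ℤ, s = k / D.N j
  lat : ∀ j (k : ℤ), ψ (k / D.N j, D.T j) = 0

/-- the second coordinate direction -/
def e1 : Fin 5 → ℝ := ![0, 1, 0, 0, 0]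

lemma tendsto_line (x : Fin 5 → ℝ) : Tendsto (fun δ : ℝ => x + δ • e1) (𝓝 0) (𝓝 x) := by
  have h : Continuous (fun δ : ℝ => x + δ • e1) := by fun_prop
  have h1 := h.tendsto 0
  simpa using h1

lemma line_zero (x : Fin 5 → ℝ) (δ : ℝ) : (x + δ • e1) 0 = x 0 := by
  simp [e1]

lemma line_one (x : Fin 5 → ℝ) (δ : ℝ) : (x + δ • e1) 1 = x 1 + δ := by
  simp [e1]

variable {D : Scales} {ψ : ℝ × ℝ → ℝ}

lemma exists_ne (G : Good D ψ) {x : Fin 5 → ℝ} (hx : 0 < x 1) {P : (Fin 5 → ℝ) → Prop}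
    (hP : ∀ᶠ z in 𝓝 x, P z) : ∃ z, P z ∧ ψ (z 0, z 1) ≠ 0 := by
  have h1 : ∀ᶠ δ in 𝓝 (0 : ℝ), P (x + δ • e1) := (tendsto_line x).eventually hP
  have h2 : ∀ᶠ δ in 𝓝 (0 : ℝ), 0 < x 1 + δ := by
    have : ContinuousAt (fun δ : ℝ => x 1 + δ) 0 := by fun_prop
    exact this.eventually (lt_mem_nhds (by simpa using hx))
  have hc : ((fun δ : ℝ => x 1 + δ) ⁻¹' (range D.T)).Countable :=
    (countable_range D.T).preimage (add_right_injective (x 1))
  have h3 : ∃ᶠ δ in 𝓝 (0 : ℝ), δ ∈ ((fun δ : ℝ => x 1 + δ) ⁻¹' (range D.T))ᶜ :=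
    mem_closure_iff_frequently.1 (hc.dense_compl ℝ 0)
  obtain ⟨δ, hδ1, hδ2, hδ3⟩ := (h3.and_eventually (h1.and h2)).exists
  refine ⟨_, hδ2, fun h0 => hδ1 ?_⟩
  rw [line_one] at h0
  obtain ⟨j, hj, -⟩ := G.zero _ _ hδ3 h0
  exact ⟨j, hj.symm⟩

section diffeo

variable {U V : Set (Fin 5 → ℝ)} {h g : (Fin 5 → ℝ) → (Fin 5 → ℝ)}

lemma nonpos_of_neg (G : Good D ψ) (H : IsCRDiffeo (SS G.smooth) U V h g) {x : Fin 5 → ℝ}
    (hx : x ∈ U) (hx1 : x 1 < 0) : h x 1 ≤ 0 := by
  by_contra hcon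
  push Not at hcon
  have hyV : h x ∈ V := H.mapsTo x hx
  have hcg : ContinuousAt g (h x) := (H.differentiableAt' hyV).continuousAt
  have ev1 : ∀ᶠ z in 𝓝 (h x), g z 1 < 0 := by
    have h1 : ContinuousAt (fun z => g z 1) (h x) := (continuous_apply 1).continuousAt.comp hcg
    refine h1.eventually (gt_mem_nhds ?_)
    change g (h x) 1 < 0
    rw [H.left_inv x hx]
    exact hx1
  have ev2 : ∀ᶠ z in 𝓝 (h x), z ∈ V := H.openV.mem_nhds hyV
  obtain ⟨z, ⟨hz1, hz2⟩, hz3⟩ := exists_ne G hcon (ev1.and ev2)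
  apply hz3
  rw [← levi_iff G.smooth H.symm hz2]
  exact G.neg _ _ hz1.le

lemma nonneg_of_pos (G : Good D ψ) (H : IsCRDiffeo (SS G.smooth) U V h g) {x : Fin 5 → ℝ}
    (hx : x ∈ U) (hx1 : 0 < x 1) : 0 ≤ h x 1 := by
  by_contra hcon
  push Not at hcon
  have h1 := nonpos_of_neg G H.symm (H.mapsTo x hx) hcon
  rw [H.left_inv x hx] at h1
  linarith

lemma zero_of_zero (G : Good D ψ) (H : IsCRDiffeo (SS G.smooth) U V h g) {x : Fin 5 → ℝ}
    (hx : x ∈ U) (hx1 : x 1 = 0) : h x 1 = 0 := by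
  have hcont : ContinuousAt h x := (H.differentiableAt hx).continuousAt
  have h1 : Tendsto (fun δ : ℝ => h (x + δ • e1) 1) (𝓝 0) (𝓝 (h x 1)) := by
    have h2 : ContinuousAt (fun z => h z 1) x := (continuous_apply 1).continuousAt.comp hcont
    exact h2.tendsto.comp (tendsto_line x)
  have hU : ∀ᶠ δ in 𝓝 (0 : ℝ), x + δ • e1 ∈ U :=
    (tendsto_line x).eventually (H.openU.mem_nhds hx)
  apply le_antisymm
  · have h3 : Tendsto (fun δ : ℝ => h (x + δ • e1) 1) (𝓝[<] 0) (𝓝 (h x 1)) :=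
      h1.mono_left nhdsWithin_le_nhds
    refine le_of_tendsto h3 ?_
    filter_upwards [nhdsWithin_le_nhds hU, self_mem_nhdsWithin] with δ hδ hδ0
    apply nonpos_of_neg G H hδ
    rw [line_one, hx1, zero_add]
    exact hδ0
  · have h3 : Tendsto (fun δ : ℝ => h (x + δ • e1) 1) (𝓝[>] 0) (𝓝 (h x 1)) :=
      h1.mono_left nhdsWithin_le_nhds
    refine ge_of_tendsto h3 ?_
    filter_upwards [nhdsWithin_le_nhds hU, self_mem_nhdsWithin] with δ hδ hδ0
    apply nonneg_of_pos G H hδ
    rw [line_one, hx1, zero_add]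
    exact hδ0

lemma pos_of_pos (G : Good D ψ) (H : IsCRDiffeo (SS G.smooth) U V h g) {x : Fin 5 → ℝ}
    (hx : x ∈ U) (hx1 : 0 < x 1) : 0 < h x 1 := by
  rcases (nonneg_of_pos G H hx hx1).lt_or_eq with h1 | h1
  · exact h1
  · have h2 := zero_of_zero G H.symm (H.mapsTo x hx) h1.symm
    rw [H.left_inv x hx] at h2
    linarith

lemma lip (G : Good D ψ) (H : IsCRDiffeo (SS G.smooth) U V h g) {x₀ : Fin 5 → ℝ}
    (hx : x₀ ∈ U) (hx1 : x₀ 1 = 0) : ∃ C : ℝ, 0 < C ∧ ∀ᶠ x in 𝓝 x₀, |h x 1| ≤ C * |x 1| := by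
  have hs : ContDiffAt ℝ 1 h x₀ :=
    (H.smooth.contDiffAt (H.openU.mem_nhds hx)).of_le (by exact_mod_cast le_top)
  obtain ⟨K, t, ht, hK⟩ := hs.exists_lipschitzOnWith
  have hup : Tendsto (fun x : Fin 5 → ℝ => Function.update x 1 (0 : ℝ)) (𝓝 x₀) (𝓝 x₀) := by
    have h1 : Continuous (fun x : Fin 5 → ℝ => Function.update x 1 (0 : ℝ)) := by fun_prop
    have h2 := h1.tendsto x₀
    have h3 : Function.update x₀ 1 (0 : ℝ) = x₀ := by
      rw [← hx1, Function.update_eq_self]
    rwa [h3] at h2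
  refine ⟨K + 1, by positivity, ?_⟩
  filter_upwards [ht, hup.eventually ht, hup.eventually (H.openU.mem_nhds hx)] with x h1 h2 h3
  have h4 : h (Function.update x 1 (0 : ℝ)) 1 = 0 := zero_of_zero G H h3 (by simp)
  have h5 := hK.dist_le_mul x h1 _ h2
  have h6 : dist x (Function.update x 1 (0 : ℝ)) ≤ |x 1| := by
    rw [dist_pi_le_iff (abs_nonneg _)]
    intro i
    by_cases hi : i = 1
    · subst hi
      simp
    · rw [Function.update_of_ne hi]
      simp
  have h7 : |h x 1| ≤ dist (h x) (h (Function.update x 1 (0 : ℝ))) := by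
    have := dist_le_pi_dist (h x) (h (Function.update x 1 (0 : ℝ))) 1
    rw [h4, Real.dist_eq, sub_zero] at this
    exact this
  have h8 : (K : ℝ) * dist x (Function.update x 1 (0 : ℝ)) ≤ K * |x 1| := by gcongr
  have h9 := abs_nonneg (x 1)
  have : ((K : ℝ) + 1) * |x 1| = K * |x 1| + |x 1| := by ring
  linarith

end diffeo

lemma N_mono (D : Scales) : Monotone D.N := by
  apply monotone_nat_of_le_succ
  intro j
  refine le_trans ?_ (D.grow j)
  exact Nat.le_mul_of_pos_left _ (by positivity)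

lemma orbit_constraint (G : Good D ψ) {q : Fin 5 → ℝ} (hq : q ∈ (SS G.smooth).orbit 0) :
    ∃ (θ : ℝ) (k : ℕ → ℤ), Tendsto (fun j => (k j : ℝ) - D.N j * q 0) atTop (𝓝 θ) := by
  obtain ⟨U, V, h, g, H, hU, rfl⟩ := hq
  have h00 : h 0 1 = 0 := zero_of_zero G H hU rfl
  have hcont : ContinuousAt h 0 := (H.differentiableAt hU).continuousAt
  have hx : Tendsto (fun j : ℕ => D.T j • e1) atTop (𝓝 0) := by
    have h1 := (tendsto_line 0).comp D.T_tendsto
    simpa [Function.comp_def] using h1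
  have hxh : Tendsto (fun j : ℕ => h (D.T j • e1)) atTop (𝓝 (h 0)) := hcont.tendsto.comp hx
  obtain ⟨C, hC, hC1⟩ := lip G H hU rfl
  obtain ⟨C', hC', hC2⟩ := lip G H.symm (H.mapsTo 0 hU) h00
  have e1one : ∀ j, (D.T j • e1) 1 = D.T j := fun j => by simp [e1]
  have e1zero : ∀ j, (D.T j • e1) 0 = 0 := fun j => by simp [e1]
  obtain ⟨J, hJ⟩ := exists_nat_gt (max C C')
  have key : ∀ᶠ j in atTop, ∃ k : ℤ, h (D.T j • e1) 0 = k / D.N j := by
    filter_upwards [hx.eventually (H.openU.mem_nhds hU), hx.eventually hC1, hxh.eventually hC2,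
      eventually_ge_atTop (J + 1)] with j h1 h2 h3 h4
    have hψ0 : ψ ((D.T j • e1) 0, (D.T j • e1) 1) = 0 := by
      rw [e1one, e1zero]
      have := G.lat j 0
      simpa using this
    have hψ1 : ψ (h (D.T j • e1) 0, h (D.T j • e1) 1) = 0 := (levi_iff G.smooth H h1).2 hψ0
    have hpos : 0 < h (D.T j • e1) 1 := by
      apply pos_of_pos G H h1
      rw [e1one]
      exact D.T_pos j
    obtain ⟨i, hi, k, hk⟩ := G.zero _ _ hpos hψ1
    rw [H.left_inv _ h1] at h3
    rw [e1one, hi, abs_of_pos (D.T_pos i), abs_of_pos (D.T_pos j)] at h2 h3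
    have hNi := D.Npos i
    have hNj := D.Npos j
    -- h2 : T i ≤ C * T j, h3 : T j ≤ C' * T i
    have h5 : (D.N j : ℝ) ≤ C * D.N i := by
      unfold Scales.T at h2
      rw [mul_one_div, div_le_div_iff₀ hNi hNj] at h2
      linarith
    have h6 : (D.N i : ℝ) ≤ C' * D.N j := by
      unfold Scales.T at h3
      rw [mul_one_div, div_le_div_iff₀ hNj hNi] at h3
      linarith
    have hCJ : C < J := lt_of_le_of_lt (le_max_left _ _) hJ
    have hCJ' : C' < J := lt_of_le_of_lt (le_max_right _ _) hJ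
    have hJj : (J : ℝ) + 1 ≤ j := by exact_mod_cast h4
    rcases lt_trichotomy i j with hij | hij | hij
    · exfalso
      obtain ⟨l, rfl⟩ : ∃ l, j = l + 1 := ⟨j - 1, by omega⟩
      have h7 := D.N_succ l
      have h8 : (D.N i : ℝ) ≤ D.N l := by exact_mod_cast N_mono D (by omega)
      push_cast at hJj
      have h9 := D.Npos l
      have h10 : C * D.N i ≤ J * D.N l := by
        have : (0:ℝ) ≤ J := by positivity
        nlinarith
      have h11 : (J : ℝ) * D.N l ≤ l * D.N l := by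
        apply mul_le_mul_of_nonneg_right _ h9.le
        linarith
      have h12 : (0 : ℝ) ≤ l * D.N l := by positivity
      nlinarith
    · subst hij
      exact ⟨k, hk⟩
    · exfalso
      have h7 := D.N_succ j
      have h8 : (D.N (j + 1) : ℝ) ≤ D.N i := by exact_mod_cast N_mono D (by omega)
      have h11 : C' * (D.N j : ℝ) ≤ j * D.N j := by
        apply mul_le_mul_of_nonneg_right _ hNj.le
        linarith
      have h12 : (0 : ℝ) ≤ j * D.N j := by positivity
      nlinarith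
  classical
  have hd : DifferentiableAt ℝ (fun t : ℝ => h (t • e1) 0) 0 := by
    have h1 : DifferentiableAt ℝ h ((0 : ℝ) • e1) := by
      rw [zero_smul]
      exact H.differentiableAt hU
    have h2 : DifferentiableAt ℝ (fun t : ℝ => h (t • e1)) 0 :=
      h1.comp (0 : ℝ) (differentiableAt_id.smul_const e1)
    exact differentiableAt_pi.1 h2 0
  have hs := hasDerivAt_iff_tendsto_slope_zero.1 hd.hasDerivAt
  have hT : Tendsto D.T atTop (𝓝[≠] 0) := by
    rw [tendsto_nhdsWithin_iff]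
    exact ⟨D.T_tendsto, Eventually.of_forall fun j => (D.T_pos j).ne'⟩
  refine ⟨_, fun j => if hk : ∃ k : ℤ, h (D.T j • e1) 0 = k / D.N j then hk.choose else 0,
    (hs.comp hT).congr' ?_⟩
  filter_upwards [key] with j hj
  rw [dif_pos hj]
  have h1 := hj.choose_spec
  have h2 : ((hj.choose : ℤ) : ℝ) = D.N j * h (D.T j • e1) 0 := by
    rw [eq_div_iff (D.Npos j).ne'] at h1
    rw [← h1, mul_comm]
  rw [h2]
  simp only [Function.comp, zero_add, zero_smul, smul_eq_mul]
  unfold Scales.T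
  rw [one_div, inv_inv]
  ring

/-! ### the good first coordinates contain no interval -/

lemma floor_close (y : ℝ) {n : ℝ} (hn : 0 < n) (α : ℝ) :
    |((⌊n * y - α⌋ : ℝ) + α) / n - y| ≤ 1 / n := by
  have h1 := Int.floor_le (n * y - α)
  have h2 := Int.lt_floor_add_one (n * y - α)
  have h3 : ((⌊n * y - α⌋ : ℝ) + α) / n - y = ((⌊n * y - α⌋ : ℝ) + α - n * y) / n := by
    field_simp
  rw [h3, abs_div, abs_of_pos hn]
  gcongr
  rw [abs_le]
  constructor <;> linarith

lemma bad_point (D : Scales) {a b : ℝ} (hab : a < b) : ∃ s, a < s ∧ s < b ∧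
    ¬ ∃ (θ : ℝ) (k : ℕ → ℤ), Tendsto (fun j => (k j : ℝ) - D.N j * s) atTop (𝓝 θ) := by
  obtain ⟨i, hi⟩ : ∃ i, D.T i < (b - a) / 8 :=
    (D.T_tendsto.eventually (gt_mem_nhds (by linarith))).exists
  set α : ℕ → ℝ := fun j => if Even j then 0 else 1 / 2 with hα
  obtain ⟨κ, C, hC0, hC, hκ⟩ : ∃ (κ : ℕ → ℤ) (C : ℕ → ℝ), |C 0 - (a + b) / 2| ≤ D.T i ∧
      (∀ j, |C (j + 1) - C j| ≤ D.T (i + (j + 1))) ∧ ∀ j, C j = (κ j + α j) / D.N (i + j) := by
    obtain ⟨C, hC0, hC⟩ : ∃ C : ℕ → ℝ,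
        C 0 = ((⌊(D.N i : ℝ) * ((a + b) / 2) - 0⌋ : ℝ) + 0) / (D.N i : ℝ) ∧
        ∀ j, C (j + 1) = ((⌊(D.N (i + (j + 1)) : ℝ) * C j - α (j + 1)⌋ : ℝ) + α (j + 1)) /
          (D.N (i + (j + 1)) : ℝ) :=
      ⟨fun j => Nat.rec (((⌊(D.N i : ℝ) * ((a + b) / 2) - 0⌋ : ℝ) + 0) / (D.N i : ℝ))
        (fun j c => ((⌊(D.N (i + (j + 1)) : ℝ) * c - α (j + 1)⌋ : ℝ) + α (j + 1)) /
          (D.N (i + (j + 1)) : ℝ)) j, rfl, fun _ => rfl⟩
    refine ⟨fun j => Nat.casesOn j ⌊(D.N i : ℝ) * ((a + b) / 2) - 0⌋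
      (fun j => ⌊(D.N (i + (j + 1)) : ℝ) * C j - α (j + 1)⌋), C, ?_, ?_, ?_⟩
    · rw [hC0]
      exact floor_close _ (D.Npos i) 0
    · intro j
      rw [hC]
      exact floor_close _ (D.Npos _) _
    · intro j
      cases j with
      | zero => rw [hC0]; simp [hα]
      | succ j => rw [hC]
  obtain ⟨s, hs⟩ := nested C (fun j => D.T (i + j) / 8)
    (fun j => by have := D.T_pos (i + j); positivity) (by
      intro j
      have h1 := hC j
      have h2 : D.T (i + (j + 1)) ≤ D.T (i + j) / 16 := by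
        have h3 := D.N_succ (i + j)
        have h4 := D.Npos (i + j)
        have h5 := D.Npos (i + j + 1)
        have h6 : 16 * (D.N (i + j) : ℝ) ≤ D.N (i + j + 1) := by
          have : (0 : ℝ) ≤ ((i + j : ℕ) : ℝ) := by positivity
          nlinarith
        have h7 : i + (j + 1) = i + j + 1 := by ring
        rw [h7]
        unfold Scales.T
        rw [div_div, one_div_le_one_div h5 (by positivity)]
        linarith
      have h3 := D.T_pos (i + j)
      linarith)
  have hs0 := hs 0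
  simp only [add_zero] at hs0
  have hTi := D.T_pos i
  have hdist : |s - (a + b) / 2| ≤ D.T i / 8 + D.T i := by
    have h1 : s - (a + b) / 2 = (s - C 0) + (C 0 - (a + b) / 2) := by ring
    rw [h1]
    exact (abs_add_le _ _).trans (add_le_add hs0 hC0)
  rw [abs_le] at hdist
  refine ⟨s, by linarith [hdist.1], by linarith [hdist.2], ?_⟩
  rintro ⟨θ, k, hk⟩
  have h1 : ∀ᶠ j in atTop, |((k j : ℝ) - D.N j * s) - θ| < 1 / 16 := by
    filter_upwards [(Metric.tendsto_nhds.1 hk) (1 / 16) (by norm_num)] with j hj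
    rwa [Real.dist_eq] at hj
  obtain ⟨J, hJ⟩ := eventually_atTop.1 h1
  -- two consecutive indices
  have herr : ∀ j, |D.N (i + j) * s - (κ j + α j)| ≤ 1 / 8 := by
    intro j
    have h2 := hs j
    have h3 := D.Npos (i + j)
    rw [hκ j] at h2
    have h4 : D.N (i + j) * s - (κ j + α j) = D.N (i + j) * (s - (κ j + α j) / D.N (i + j)) := by
      field_simp
    rw [h4, abs_mul, abs_of_pos h3]
    calc (D.N (i + j) : ℝ) * |s - (κ j + α j) / D.N (i + j)|
        ≤ D.N (i + j) * (D.T (i + j) / 8) := by gcongr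
      _ = 1 / 8 := by unfold Scales.T; field_simp
  have hA := hJ (i + 2 * J) (by omega)
  have hB := hJ (i + (2 * J + 1)) (by omega)
  have hA' := herr (2 * J)
  have hB' := herr (2 * J + 1)
  have hα0 : α (2 * J) = 0 := by simp [hα]
  have hα1 : α (2 * J + 1) = 1 / 2 := by
    have : ¬ Even (2 * J + 1) := by
      rw [Nat.not_even_iff_odd]
      exact odd_two_mul_add_one J
    simp only [hα, this, if_false]
  rw [hα0] at hA'
  rw [hα1] at hB'
  rw [abs_lt] at hA hB
  rw [abs_le] at hA' hB'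
  set z : ℤ := (k (i + (2 * J + 1)) - κ (2 * J + 1)) - (k (i + 2 * J) - κ (2 * J)) with hz
  have hz1 : (0 : ℝ) < z := by
    rw [hz]; push_cast; linarith [hA.1, hA.2, hB.1, hB.2, hA'.1, hA'.2, hB'.1, hB'.2]
  have hz2 : (z : ℝ) < 1 := by
    rw [hz]; push_cast; linarith [hA.1, hA.2, hB.1, hB.2, hA'.1, hA'.2, hB'.1, hB'.2]
  have hz3 : 0 < z := by exact_mod_cast hz1
  have hz4 : z < 1 := by exact_mod_cast hz2
  omega

/-! ### many shears -/

lemma many_points (D : Scales) :
    ¬ {s : ℝ | ∀ j, ∃ k : ℤ, |k / D.N j - s| ≤ D.a j}.Countable := by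
  intro hcon
  obtain ⟨e, he⟩ := (Set.countable_iff_exists_subset_range).1 hcon
  classical
  set F : ℕ → ℝ → ℤ := fun j c =>
    if |e j - (⌊(D.N (j + 1) : ℝ) * c - 0⌋ : ℝ) / D.N (j + 1)| ≤ D.T (j + 1) / 4 then
      ⌊(D.N (j + 1) : ℝ) * c - 0⌋ + 1 else ⌊(D.N (j + 1) : ℝ) * c - 0⌋ with hF
  obtain ⟨C, hC0, hC⟩ : ∃ C : ℕ → ℝ, C 0 = 0 ∧ ∀ j, C (j + 1) = (F j (C j) : ℝ) / D.N (j + 1) :=
    ⟨fun j => Nat.rec 0 (fun j c => (F j c : ℝ) / D.N (j + 1)) j, rfl, fun _ => rfl⟩
  have hT4 : ∀ j, D.T (j + 1) ≤ D.T j / 16 := by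
    intro j
    have h3 := D.N_succ j
    have h4 := D.Npos j
    have h5 := D.Npos (j + 1)
    have h6 : 16 * (D.N j : ℝ) ≤ D.N (j + 1) := by
      have : (0 : ℝ) ≤ (j : ℝ) := by positivity
      nlinarith
    unfold Scales.T
    rw [div_div, one_div_le_one_div h5 (by positivity)]
    linarith
  have hTa : ∀ j, D.T (j + 1) ≤ D.a j / 8 := by
    intro j
    have h1 := D.fine j
    have h2 := D.Npos (j + 1)
    unfold Scales.T
    rw [div_le_div_iff₀ h2 (by norm_num)]
    linarith
  have hclose : ∀ j, |C (j + 1) - C j| ≤ D.T (j + 1) := by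
    intro j
    have h2 := D.Npos (j + 1)
    have h3 := Int.floor_le ((D.N (j + 1) : ℝ) * C j - 0)
    have h4 := Int.lt_floor_add_one ((D.N (j + 1) : ℝ) * C j - 0)
    have h5 : C (j + 1) - C j = ((F j (C j) : ℝ) - D.N (j + 1) * C j) / D.N (j + 1) := by
      rw [hC]; field_simp
    rw [h5, abs_div, abs_of_pos h2]
    unfold Scales.T
    gcongr
    rw [abs_le]
    simp only [hF]
    split_ifs
    · push_cast
      constructor <;> linarith
    · constructor <;> linarith
  have havoid : ∀ j, D.T (j + 1) / 4 < |e j - C (j + 1)| := by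
    intro j
    have h2 := D.Npos (j + 1)
    have hT := D.T_pos (j + 1)
    rw [hC]
    simp only [hF]
    split_ifs with hif
    · have h6 : (((⌊(D.N (j + 1) : ℝ) * C j - 0⌋ + 1 : ℤ) : ℝ)) / D.N (j + 1) =
          (⌊(D.N (j + 1) : ℝ) * C j - 0⌋ : ℝ) / D.N (j + 1) + D.T (j + 1) := by
        unfold Scales.T
        push_cast
        ring
      rw [h6]
      rw [abs_le] at hif
      rw [abs_sub_comm, abs_of_pos (by linarith)]
      linarith
    · exact not_le.1 hif
  obtain ⟨s, hs⟩ := nested C (fun j => min (D.a j) (D.T j / 4))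
    (fun j => by
      have := D.T_pos j
      have h2 := D.apos j
      exact le_min h2.le (by positivity)) (by
      intro j
      have h1 := hclose j
      have h2 := hT4 j
      have h3 := hTa j
      have h4 := D.T_pos j
      have h5 : min (D.a (j + 1)) (D.T (j + 1) / 4) ≤ D.T (j + 1) / 4 := min_le_right _ _
      have h6 := D.apos j
      apply le_min <;> linarith)
  have hmem : s ∈ {s : ℝ | ∀ j, ∃ k : ℤ, |k / D.N j - s| ≤ D.a j} := by
    intro j
    have h1 : |s - C j| ≤ D.a j := (hs j).trans (min_le_left _ _)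
    cases j with
    | zero =>
      refine ⟨0, ?_⟩
      rw [hC0] at h1
      simpa using h1
    | succ j =>
      refine ⟨F j (C j), ?_⟩
      rw [← hC, abs_sub_comm]
      exact h1
  obtain ⟨j, hj⟩ := he hmem
  have h1 := havoid j
  have h2 : |s - C (j + 1)| ≤ D.T (j + 1) / 4 := (hs (j + 1)).trans (min_le_right _ _)
  rw [hj] at h1
  linarith

/-- Negative answer to the first question: there are a CR structure on real 5-space and a point
whose orbit under local CR diffeomorphisms is not the image of an injective immersion of any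
(second countable) smooth manifold. -/
theorem result : ∃ (S : CRStructure 5 1) (p : Fin 5 → ℝ),
    ∀ (k : ℕ) (N : Type) (_ : TopologicalSpace N) (_ : ChartedSpace (EuclideanSpace ℝ (Fin k)) N),
      IsManifold (𝓡 k) ∞ N → SecondCountableTopology N →
      ∀ ι : N → (Fin 5 → ℝ), IsInjectiveImmersion (EuclideanSpace ℝ (Fin k)) (Fin 5 → ℝ) N ι →
        Set.range ι ≠ S.orbit p := by
  obtain ⟨D⟩ := exists_scales
  obtain ⟨ψ, h1, h2, h3, h4, h5⟩ := D.exists_psi
  have G : Good D ψ := ⟨h1, h2, h3, h4⟩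
  refine ⟨SS G.smooth, 0, ?_⟩
  intro k N _ _ _ _ ι hι hrange
  have hcont : Continuous (fun y => ι y 0) := (continuous_apply 0).comp hι.1.continuous
  have hconst : ∀ y, ∀ z ∈ connectedComponent y, ι z 0 = ι y 0 := by
    intro y z hz
    by_contra hne
    have hpre : IsPreconnected ((fun y => ι y 0) '' connectedComponent y) :=
      isPreconnected_connectedComponent.image _ hcont.continuousOn
    have hy : ι y 0 ∈ ((fun y => ι y 0) '' connectedComponent y) := ⟨y, mem_connectedComponent, rfl⟩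
    have hz' : ι z 0 ∈ ((fun y => ι y 0) '' connectedComponent y) := ⟨z, hz, rfl⟩
    have key : ∀ a b, a ∈ ((fun y => ι y 0) '' connectedComponent y) →
        b ∈ ((fun y => ι y 0) '' connectedComponent y) → ¬ a < b := by
      intro a b ha hb hab
      obtain ⟨s, has, hsb, hbad⟩ := bad_point D hab
      obtain ⟨w, -, hw⟩ := (hpre.ordConnected.out ha hb) ⟨has.le, hsb.le⟩
      apply hbad
      have hmem : ι w ∈ (SS G.smooth).orbit 0 := by rw [← hrange]; exact mem_range_self w
      have := orbit_constraint G hmem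
      simp only at hw
      rwa [hw] at this
    rcases lt_or_gt_of_ne hne with hlt | hlt
    · exact key _ _ hz' hy hlt
    · exact key _ _ hy hz' hlt
  have : LocallyConnectedSpace N := ChartedSpace.locallyConnectedSpace (EuclideanSpace ℝ (Fin k)) N
  obtain ⟨s, hsc, hsd⟩ := TopologicalSpace.exists_countable_dense N
  have hcount : (range fun y => ι y 0).Countable := by
    refine (hsc.image fun y => ι y 0).mono ?_
    rintro _ ⟨y, rfl⟩
    obtain ⟨z, hz, hz'⟩ := hsd.exists_mem_open (isOpen_connectedComponent (x := y))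
      ⟨y, mem_connectedComponent⟩
    exact ⟨z, hz, hconst y z hz'⟩
  apply many_points D
  refine hcount.mono ?_
  intro δ hδ
  obtain ⟨η, hη, hη0, hinv⟩ := h5 δ hδ
  have hmem : (![δ, 0, 0, 0, 0] : Fin 5 → ℝ) ∈ (SS G.smooth).orbit 0 := by
    refine ⟨univ, univ, _, _, Phi_isCR G.smooth hη hinv 0 0 0, mem_univ _, ?_⟩
    funext i
    fin_cases i <;> simp [Phi, hη0]
  rw [← hrange] at hmem
  obtain ⟨y, hy⟩ := hmem
  exact ⟨y, by simp [hy]⟩

end Pool.Agent.Results.MP_430a41_an.OrbitNotImmersed
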